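import Pool.Agent.V1192.Fre

/-!
# MP_8296bc_an, Q1

There are a Fréchet algebra `A` and a Fréchet `A`-module which has no injective coresolution.
In fact no non-zero Fréchet `A`-module has one, for `A` the algebra `z ℂ[[z]]`.
-/

namespace Pool.Agent.Results.MP_8296bc_an.NoCoresolution

open Pool.Agent.V1192

/-- There is a Fréchet algebra `A` which has non-zero Fréchet modules, and none of them has an
injective coresolution. -/
theorem result : ∃ A : Fre.FreAlg.{0},
    (∃ X : Fre.FreMod.{0} A, ∃ x : X.E, x ≠ 0) ∧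
    ∀ X : Fre.FreMod.{0} A, (∃ x : X.E, x ≠ 0) → ¬ ∃ R : Fre.Cpx X, R.IsInjCores :=
  ⟨Fre.zSer, ⟨Fre.triv Fre.zSer, (show ℂ from 1), one_ne_zero (α := ℂ)⟩, fun X ⟨x, hx⟩ ⟨R, hR⟩ =>
    hx (Fre.eq_zero_of_cores X R hR x)⟩

end Pool.Agent.Results.MP_8296bc_an.NoCoresolution
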